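import Pool.Agent.H5.CAS

open scoped ENNReal

namespace Pool.Agent.Results.MP_3f01e7_al.DiscreteUnimodular

open Pool.Agent.H5.CAS

/-- left Haar measure with weights `η` -/
def LeftHaar {D : Type} (c : D → D → PMF D) (η : D → ℝ≥0∞) : Prop :=
  (∀ h, η h ≠ 0 ∧ η h ≠ ∞) ∧ ∀ a d, ∑' b, η b * c a b d = η d

open Classical in
/-- property (T2) -/
def T2 {X D : Type} (K : D → X → PMF X) (π : X → X → D) (c : D → D → PMF D) (bar : D → D) :
    Prop :=
  ∃ (ω : X → ℝ≥0∞) (η : D → ℝ≥0∞), Adjoint K bar ω ∧ LeftHaar c η ∧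
    ∀ h x y, K h x y * η h = if π x y = h then ω y else 0

theorem result {X D : Type} [Nonempty X] (K : D → X → PMF X) (π : X → X → D)
    (c : D → D → PMF D) (e : D) (bar : D → D) (h : IsCAS K π c e bar)
    (hc : ∀ a, c a (bar a) e = c (bar a) a e) (h1 : T1 K π c) : T2 K π c bar := by
  classical
  obtain ⟨-, hs, ⟨-, -, -, hbb, he', -⟩, hp, he, ω, hω, ha⟩ := h
  have hz : ∀ h x y, π x y ≠ h → K h x y = 0 := fun h x y hh =>
    (PMF.apply_eq_zero_iff _ _).2 fun h' => hh ((hs _ _ _).1 h')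
  have a1 : ∀ x z, π x z = e ↔ z = x := fun x z => by rw [← hs, he]; simp
  have a2 : ∀ x y, π x y = bar (π y x) := fun x y => by
    rw [← hs, PMF.mem_support_iff]
    intro h0
    have := ha (π y x) x y
    rw [h0, mul_zero] at this
    exact mul_ne_zero (hω y).1 ((hs _ _ _).2 rfl) this.symm
  have a3 : ∀ y x, K (π y x) y x = c (bar (π y x)) (π y x) e := fun y x => by
    rw [← a2, ← h1, PMF.map_apply, tsum_eq_single x, if_pos ((a1 x x).2 rfl).symm]
    intro z hz
    rw [if_neg fun h => hz ((a1 x z).1 h.symm)]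
  have a4 : ∀ h, c (bar h) h e ≠ 0 := fun h => (he' _ _).2 (hbb h).symm
  have a5 : ∀ h x y, K h x y * (c (bar h) h e)⁻¹ = if π x y = h then 1 else 0 := by
    intro h x y
    split_ifs with hh
    · subst hh
      rw [a3, ENNReal.mul_inv_cancel (a4 _) (PMF.apply_ne_top _ _)]
    · rw [hz _ _ _ hh, zero_mul]
  refine ⟨fun _ => 1, fun h => (c (bar h) h e)⁻¹, ⟨by simp, fun h x y => ?_⟩,
    ⟨fun h => ⟨ENNReal.inv_ne_zero.2 (PMF.apply_ne_top _ _), ENNReal.inv_ne_top.2 (a4 h)⟩,
      fun a d => ?_⟩, a5⟩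
  · by_cases hh : π y x = h
    · subst hh
      rw [a3 y x, ← a2 x y, a3 x y, a2 x y, hbb, hc]
    · rw [hz _ _ _ hh, hz]
      intro h0
      exact hh (by rw [a2, h0, hbb])
  · obtain ⟨x⟩ := ‹Nonempty X›
    obtain ⟨z, hz'⟩ := (K d x).support_nonempty
    have hd := (hs _ _ _).1 hz'
    have b1 : ∀ b, ∑' y, K a x y * K b y z = c a b d * c (bar d) d e := fun b => by
      rw [← PMF.bind_apply, hp, PMF.bind_apply, tsum_eq_single d, ← hd, a3]
      intro l hl
      rw [hz _ _ _ (hd.trans_ne hl.symm), mul_zero]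
    have b2 : (∑' b, (c (bar b) b e)⁻¹ * c a b d) * c (bar d) d e = 1 := by
      rw [← ENNReal.tsum_mul_right]
      simp only [mul_assoc, ← b1, ← ENNReal.tsum_mul_left]
      rw [ENNReal.tsum_comm, ← (K a x).tsum_coe]
      refine tsum_congr fun y => ?_
      have b3 : ∀ b, (c (bar b) b e)⁻¹ * (K a x y * K b y z) =
          K a x y * if π y z = b then 1 else 0 := fun b => by rw [← a5]; ring
      simp only [b3]
      rw [ENNReal.tsum_mul_left, tsum_eq_single (π y z), if_pos rfl, mul_one]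
      intro l hl
      rw [if_neg hl.symm]
    exact ENNReal.eq_inv_of_mul_eq_one_left b2

end Pool.Agent.Results.MP_3f01e7_al.DiscreteUnimodular
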