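import Pool.Agent.H5.CAS

namespace Pool.Agent.Results.MP_3f01e7_al.Yes

open Pool.Agent.H5.CAS

theorem result : ∃ (X D : Type) (_ : Countable X) (_ : Countable D) (K : D → X → PMF X)
    (π : X → X → D) (c : D → D → PMF D) (e : D) (bar : D → D),
    IsCAS K π c e bar ∧ T1 K π c ∧ ¬ WeakT2 K π bar :=
  ⟨Y, Y, inferInstance, inferInstance, K, p, c, o, bar, isCAS, t1, not_T2 isCAS⟩

end Pool.Agent.Results.MP_3f01e7_al.Yes
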